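import Pool.Agent.Helper40.OL.Final
import Pool.Agent.Helper40.OL.THGRP
import Pool.Agent.H62.OL.Psi
import Pool.Agent.Helper11.OL.IND
import Pool.Agent.Helper11.OL.LAB
import Pool.Agent.Helper15.OL.DESC
import Pool.Agent.Helper15.OL.EXD
import Pool.Agent.Helper15.OL.INST
import Pool.Agent.Helper29.OL.BD
import Pool.Agent.Helper29.OL.EXB
import Pool.Agent.Helper3.OL.A
import Pool.Agent.Helper34.OL.Nof
import Pool.Agent.Helper34.OL.Thf
import Pool.Agent.Helper34.OL.Top
import Pool.Agent.Helper36.OL.FPV
import Pool.Agent.Helper36.OL.KFREE
import Pool.Agent.Helper39.OL.Sinf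
import Pool.Agent.Helper39.OL.Tup
import Pool.Agent.Helper48.OL.Abs
import Pool.Agent.Helper48.OL.Iso
import Pool.Agent.Helper48.OL.Tfp
import Pool.Agent.Helper6.OL.YP
import Pool.Agent.Helper61.OL.PL
import Pool.Agent.Helper70.OL.COSET
import Pool.Agent.Helper70.OL.ORB
import Pool.Agent.Helper70.OL.PMSUM
import Pool.Agent.Helper70.OL.ZQ
import Pool.Agent.Helper72.OL.Merge
import Pool.Agent.Helper72.OL.Stab
import Pool.Agent.Helper72.OL.Theta
import Pool.Agent.Helper75.OL.COMM
import Pool.Agent.Helper75.OL.DISJ
import Pool.Agent.Helper75.OL.JUMP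
import Pool.Agent.Helper92.OL.FILT

set_option autoImplicit false

/-!
# An oligomorphic group with stabilisers of type `FP_∞` which does not contain Thompson's group `F`

Theorem: there are a group `G` and an action of `G` on an infinite set `S` such that `G` has only finitely many
orbits on the set of the subsets of `S` with `n` elements, for each `n`, the stabilisers of all non-empty
finite subsets of `S` are of type `FP_∞`, and `G` does not contain a copy of Thompson's group `F`.

Idea of the proof.  `F` acts on the set `S` of the dyadic rationals in the interval `(0, 1)`, it is transitive on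
the subsets with `n` elements, and its stabilisers are of type `FP_∞`.  For `f` in `F` and `s` in `S` let
`δ_s(f)` be the jump of the logarithm (with base two) of the slope of `f` at `s`.  This is a derivation
`δ : F → ℤ[S]`; the cup product of `δ` with itself defines an extension `1 → ℤ[S × S] → G → F → 1`, and `G` acts on `S`
through `F`.  (For technical reasons `S × S` is replaced by the square of the set of the dyadic rationals in `[0, 1]`.)

(1) Let `a`, `b` be nontrivial elements of `F` with disjoint supports, and `I`, `J` components of their supports.  If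
lifts of `a` and `b` to `G` commute, then comparing the coefficients at `I × J` one sees that the product of the sums
of the jumps of `a` in `I` and of `b` in `J` is zero, but the sum of the jumps of `a` in `I` is the difference
between the logarithms of the slopes at the two ends of `I`, which have different signs.  If `A` and `B` are
commuting subgroups of `F`, then the elements of `[A, A]` are trivial on the supports of the elements of `B`; so `G`
contains no two commuting subgroups `A`, `B` such that `[A, A]` and `B` are not abelian, in particular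
no `F × F` and no `F`.

(2) `G` and the stabilisers are of type `FP_∞`: they act on a cube complex of the type considered by Stein and Farley.
Its vertices are the subdivisions of `[0, 1]` into `n` intervals (the images of the standard subdivision of `[0, n]`
under the elements of a groupoid containing `G`), modulo the finitely generated free abelian
group of the functions on the pairs of division points; the edges are the splits of one
interval.  The complex is acyclic, and the stabilisers are free abelian of finite rank.  The links which
describe how the complex is built up when the number of intervals grows are the complexes of independent sets of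
division points (no two of them are neighbours) with labels on the pairs of division points which meet the
independent set.  Removing one label after the other one sees that their homology vanishes in degrees which
tend to infinity with the number of intervals.
-/

namespace Pool.Agent.Results.MP_036a22_al.OligomorphicWithoutF

open Pointwise

/-- The group `G` has type `FP_n`: some projective resolution of the trivial module `ℤ` over the group ring `ℤ[G]`
has finitely generated terms in degrees `0, …, n`. -/
def TypeFP (n : ℕ) (G : Type) [Group G] : Prop :=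
  ∃ (P : ℕ → Type) (_ : ∀ i, AddCommGroup (P i)) (_ : ∀ i, Module (MonoidAlgebra ℤ G) (P i))
    (d : ∀ i, P (i + 1) →ₗ[MonoidAlgebra ℤ G] P i)
    (ε : P 0 →ₗ[MonoidAlgebra ℤ G] (Representation.trivial ℤ G ℤ).asModule),
    (∀ i, Module.Projective (MonoidAlgebra ℤ G) (P i)) ∧ Function.Surjective ε ∧
    LinearMap.range (d 0) = LinearMap.ker ε ∧
    (∀ i, LinearMap.range (d (i + 1)) = LinearMap.ker (d i)) ∧
    ∀ i ≤ n, Module.Finite (MonoidAlgebra ℤ G) (P i)

/-- The group `G` has type `FP_∞`: it has type `FP_n` for all `n`. -/
def TypeFPInfty (G : Type) [Group G] : Prop := ∀ n : ℕ, TypeFP n G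

/-- The action of `G` on `S` is oligomorphic: for each `n`, the group `G` has finitely many orbits on the
set of the subsets of `S` with `n` elements (there is a finite set `T` of subsets such that all finite subsets with
`n` elements are translates of elements of `T`). -/
def Oligomorphic (G S : Type) [Group G] [MulAction G S] : Prop :=
  ∀ n : ℕ, ∃ T : Set (Set S), T.Finite ∧ ∀ A : Set S, A.Finite → A.ncard = n →
    ∃ B ∈ T, ∃ g : G, A = g • B

/-- Thompson's group `F`: the group of the orientation preserving homeomorphisms `f` (order automorphisms) of the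
interval `[0, 1]` which are piecewise linear with finitely many break points, all of them dyadic rationals, and
slopes powers of two: there is a finite set `D` of dyadic rationals such that on each interval `[x, y]` without
points of `D` in its interior `f` is affine with slope `2 ^ n` for some integer `n`. -/
def ThompsonF : Subgroup (Set.Icc (0 : ℝ) 1 ≃o Set.Icc (0 : ℝ) 1) where
  carrier := {f | ∃ D : Finset ℝ, (∀ x ∈ D, ∃ (a : ℤ) (k : ℕ), x = a / 2 ^ k) ∧
    ∀ x y : Set.Icc (0 : ℝ) 1, x < y → (∀ t ∈ D, ¬ ((x : ℝ) < t ∧ t < y)) →
      ∃ n : ℤ, ∀ z : Set.Icc (0 : ℝ) 1, x ≤ z → z ≤ y →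
        ((f z : ℝ) = f x + (2 : ℝ) ^ n * (z - x))}
  mul_mem' := fun hf hg => Pool.Agent.Helper40.OL.isThompson_mul hf hg
  one_mem' := Pool.Agent.Helper40.OL.isThompson_one
  inv_mem' := fun hf => Pool.Agent.Helper40.OL.isThompson_inv hf

open Pool.Agent.Helper40.OL in
/-- conversion of the statement -/
theorem conv (h : ∃ (G : Type) (_ : Group G) (S : Type) (_ : MulAction G S), Infinite S ∧ Oligo G S ∧
      (∀ A : Set S, A.Finite → A.Nonempty → ∀ n, Pool.Agent.Helper40.OL.TypeFP n
        (MulAction.stabilizer G A)) ∧
      ¬ ∃ φ : ThF →* G, Function.Injective φ) :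
    ∃ (G : Type) (_ : Group G) (S : Type) (_ : MulAction G S), Infinite S ∧ Oligomorphic G S ∧
      (∀ A : Set S, A.Finite → A.Nonempty → TypeFPInfty (MulAction.stabilizer G A)) ∧
      ¬ ∃ φ : ThompsonF →* G, Function.Injective φ := by
  obtain ⟨G, iG, S, iS, h1, h2, h3, h4⟩ := h
  refine ⟨G, iG, S, iS, h1, h2, h3, ?_⟩
  rintro ⟨φ, hφ⟩
  have e : ThF = ThompsonF := by
    ext f
    exact thgrp_thm f
  exact h4 ⟨φ.comp (MulEquiv.subgroupCongr e).toMonoidHom,
    hφ.comp (MulEquiv.subgroupCongr e).injective⟩

open Pool.Agent.Helper40.OL in
/-- **A group with an oligomorphic action on an infinite set all of whose stabilisers of non-empty finite subsets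
are of type `FP_∞`, and which does not contain Thompson's group `F`.** -/
theorem result : ∃ (G : Type) (_ : Group G) (S : Type) (_ : MulAction G S), Infinite S ∧ Oligomorphic G S ∧
      (∀ A : Set S, A.Finite → A.Nonempty → TypeFPInfty (MulAction.stabilizer G A)) ∧
      ¬ ∃ φ : ThompsonF →* G, Function.Injective φ := by
  have hFPEQ : S_FPEQ := Pool.Agent.Helper3.OL.fpeq_thm
  have hTWO : S_TWO := Pool.Agent.Helper3.OL.two_thm
  have hRES : S_RES := Pool.Agent.Helper3.OL.res_thm
  have hTFP : S_TFP := Pool.Agent.Helper48.OL.tfp_thm
  have hISO : S_ISO := Pool.Agent.Helper48.OL.iso_thm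
  have hZQ : S_ZQ := Pool.Agent.Helper70.OL.zq_thm hTWO
  have hCOSET : S_COSET := Pool.Agent.Helper70.OL.coset_thm hZQ hFPEQ
  have hPMSUM : S_PMSUM := Pool.Agent.Helper70.OL.pmsum_thm hTWO hFPEQ
  have hORB : S_ORB := Pool.Agent.Helper70.OL.orb_thm hTWO hFPEQ hCOSET
  have hBD : S_BD := Pool.Agent.Helper29.OL.bd_thm
  have hEXB : S_EXB := Pool.Agent.Helper29.OL.exb_thm
  have hEXD : S_EXD := Pool.Agent.Helper15.OL.exd_thm hEXB
  have hFILT : S_FILT := Pool.Agent.Helper92.OL.filt_thm hEXD hBD
  have hABS : S_ABS := Pool.Agent.Helper48.OL.abs_thm hFILT hBD hRES hPMSUM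
  have hTOP : S_TOP := Pool.Agent.Helper34.OL.top_thm
  have hLAB : S_LAB := Pool.Agent.Helper11.OL.lab_thm Pool.Agent.Helper11.OL.ind_thm
  have hSWAP : S_SWAP := Pool.Agent.Helper6.OL.swap_thm
  have hORE : S_ORE := Pool.Agent.Helper6.OL.ore_thm
  have hINT : S_INT := Pool.Agent.Helper6.OL.int_thm
  have hGAM : S_GAM := Pool.Agent.Helper6.OL.gam_thm
  have hY : S_Y := Pool.Agent.Helper6.OL.y_thm
  have hINST : S_INST := Pool.Agent.Helper15.OL.inst_thm hINT hY
  have hTHETA : S_THETA := Pool.Agent.Helper72.OL.theta_thm hSWAP
  have hLABEL : S_LABEL := Pool.Agent.Helper36.OL.label_thm hTHETA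
  have hPSI : S_PSI := Pool.Agent.H62.OL.psi_thm hTHETA hLABEL hY
  have hDESC : S_DESC := Pool.Agent.Helper15.OL.desc_thm hPSI hTOP hLAB
  have hFPV : S_FPV := Pool.Agent.Helper36.OL.fpv_thm hY hORB
  have hMERGE : S_MERGE := Pool.Agent.Helper72.OL.merge_thm
  have hTUP : S_TUP := Pool.Agent.Helper39.OL.tup_thm hY hMERGE hINT
  have hSTAB : S_STAB := Pool.Agent.Helper72.OL.stab_thm hGAM hORE hY
  have hSINF : S_SINF := Pool.Agent.Helper39.OL.sinf_thm hY
  have hPL : S_PL := Pool.Agent.Helper61.OL.pl_thm hGAM
  have hDISJ : S_DISJ := Pool.Agent.Helper75.OL.disj_thm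
  have hCOMM : S_COMM := Pool.Agent.Helper75.OL.comm_thm
  have hTHF : S_THF := Pool.Agent.Helper34.OL.thf_thm
  have hNOF : S_NOF := Pool.Agent.Helper34.OL.nof_thm hPL hCOMM hDISJ hTHF
  exact conv (final (fun r hr n => fpn_gam hY hSWAP hINST hABS hDESC hFPV hTFP hr n) hISO hY hTUP hSTAB
    hSINF hPL hNOF)

end Pool.Agent.Results.MP_036a22_al.OligomorphicWithoutF
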